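import Pool.Agent.H60.LQ.Six

/-!
# LQ0, row NUM6: the numbers in dimension six
-/

set_option autoImplicit false

namespace Pool.LQ

open Pool.KTH
open Pool.Agent.H24.KTH (kp)

theorem num6 : NUM6Stmt := by
  have hk : kp (171 / 101 : ℝ) = 12371 / 60652 := by
    unfold kp
    norm_num
  refine ⟨1, zero_le_one, ?_⟩
  intro L l sb y K τ E hl hK hE hL hL5 hy hτ hsb hT h0
  unfold Two cLo cIo XX ss at hT
  rw [hk] at hT
  unfold DD PP kh at hT
  norm_num at hT
  linarith

end Pool.LQ
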