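import Pool.Agent.H60.LQ.Two
import Pool.Agent.H52.LQ.ALG2
import Pool.Agent.H23.KTH.DIR

/-!
# LQ0, row SPL3: the lines 1 given `O` are spread, explicit
-/

set_option autoImplicit false

namespace Pool.LQ

open Finset Real
open Pool.Agent.H49.Ent Pool.Agent.H32.Dense Pool.KTH
open Pool.Agent.H24.KTH (lev cap ONCStmt)

namespace SPL3aux

/-- Energies are transported by extensions of the sample space. -/
theorem marg_Gf {Ω Ω' : Type*} [Fintype Ω] [Fintype Ω'] {β : Type*} {q : Ω' → ℝ} {p : Ω → ℝ}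
    {pr : Ω' → Ω} (hm : Marg q p pr) (M : ℕ) (b : Ω → β) (τ : Ω → ℤ) :
    Gf M q (fun ω => b (pr ω)) (fun ω => τ (pr ω)) = Gf M p b τ := by
  have h : Marg (dbl q (fun ω => b (pr ω))) (dbl p b) (fun w => (pr w.1, pr w.2)) :=
    Marg.glue hm hm
  exact h.ex (fun w => ell M (τ w.1) (τ w.2))

end SPL3aux

open SPL3aux in
/-- SPL3. -/
theorem spl3 (hTWO : TWO3Stmt) (hONC : ONCStmt) (hCGP : CGP2Stmt) : SPL3Stmt := by
  intro d _ N hN ε hε
  obtain ⟨C1, hC1, h1⟩ := hTWO d N (by omega) ε hε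
  obtain ⟨C2, h2⟩ := hONC d N (by omega)
  obtain ⟨C3, hC3, h3⟩ := hCGP d
  set ε' : ℝ := ε / (2 * (|C2| * C3 + 1)) with hε'
  have hden : 0 < 2 * (|C2| * C3 + 1) := by positivity
  have hε'0 : 0 < ε' := div_pos hε hden
  obtain ⟨C4, hC4, h4⟩ := Alg.log_small hε'0
  have hεm : |C2| * C3 * ε' ≤ ε / 2 := by
    have e1 : ε' * (2 * (|C2| * C3 + 1)) = ε := div_mul_cancel₀ _ hden.ne'
    nlinarith [hε'0]
  refine ⟨C1 + |C2| * (C3 + C3 * C4 + 1), by positivity, fun J F L sb K G μ τ hF hGf hS => ?_⟩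
  intro Ω' _ q pr w hq hm hw
  have hm' : Marg q F.q pr := hm
  have hs := (hS Ω' q pr w hq hm' hw).1
  have hsum : ∑ ω, q ω = 1 := hm'.sum.trans F.h1
  have hlm := lm_nonneg J
  -- the family of the lines 0 with the time `s`
  have hfam : IsFam (2 ^ J) q (fun ω => F.Z (pr ω)) (fun ω => F.v₀ (pr ω)) (fun ω => F.u₀ (pr ω))
      (fun ω => F.s (pr ω)) :=
    ⟨by positivity, hq, hsum, fun ω h => F.hv₀ _ (hm'.pos hq h),
      hm'.det hq F.hu₀, fun ω h => F.hs _ (hm'.pos hq h)⟩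
  have hK : Kf (2 ^ J) q (bv (fun ω => F.Z (pr ω)) (fun ω => F.v₀ (pr ω)))
      (fun ω => F.s (pr ω)) ≤ K := by
    unfold Kf
    have e1 : CH q (fun ω => F.s (pr ω)) (bv (fun ω => F.Z (pr ω)) (fun ω => F.v₀ (pr ω))) =
        CH F.q F.s (fun ω => (F.v₀ ω, F.Z ω)) :=
      hm'.CH F.s (fun ω => (F.v₀ ω, F.Z ω))
    rw [e1]
    have e2 : CH F.q F.s (fun w => (F.v01 w, F.t w, F.Z w)) ≤
        CH F.q F.s (fun ω => (F.v₀ ω, F.Z ω)) :=
      CH_mono_cond F.hq (by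
        intro x x' _ _ hh
        have hh' : ((F.v₀ x, F.v₁ x), F.t x, F.Z x) = ((F.v₀ x', F.v₁ x'), F.t x', F.Z x') := hh
        simp only [Prod.mk.injEq] at hh' ⊢
        exact ⟨hh'.1.1, hh'.2.2⟩)
    have e3 := hF.cs
    have e4 : Real.log ((2 ^ J : ℕ) : ℝ) = lm J := by
      unfold lm
      push_cast
      rw [Real.log_pow]
    rw [e4]
    linarith
  have hG : Gf (2 ^ J) q (bv (fun ω => F.Z (pr ω)) (fun ω => F.v₀ (pr ω)))
      (fun ω => F.s (pr ω)) ≤ G := by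
    have e1 : Gf (2 ^ J) q (bv (fun ω => F.Z (pr ω)) (fun ω => F.v₀ (pr ω)))
        (fun ω => F.s (pr ω)) = Gf (2 ^ J) F.q (bv F.Z F.v₀) F.s :=
      marg_Gf hm' (2 ^ J) (bv F.Z F.v₀) F.s
    rw [e1]
    exact hGf
  have a1 := h1 J Ω' F.ζ q (fun ω => F.Z (pr ω)) (fun ω => F.v₀ (pr ω)) (fun ω => F.u₀ (pr ω))
    (fun ω => F.s (pr ω)) w hfam hw
  have hbig : Ex q (fun ω => Real.log (1 + |(F.c (pr ω) : ℝ)| / 2 ^ J)) ≤ F.big F.c := by
    have := hm'.ex (fun w => Real.log (1 + |(F.c w : ℝ)| / 2 ^ J))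
    exact le_of_eq this
  have a2 := h2 J Ω' F.ζ q (fun ω => F.Z (pr ω)) (fun ω => F.v₀ (pr ω)) (fun ω => F.v₁ (pr ω))
    (fun ω => F.u₀ (pr ω)) (fun ω => F.s (pr ω)) (fun ω => F.c (pr ω))
    (fun ω => (F.O (pr ω)).2) w (F.big F.c) hfam
    (fun ω h k => by
      have := F.hv₁ _ (hm'.pos hq h) k
      push_cast at this
      exact this) hw
    (fun ω _ k => by
      have e5 : (F.O (pr ω)).2 k = ⌊pos (2 ^ J) (F.u₀ (pr ω)) (F.v₀ (pr ω)) (F.s (pr ω)) k +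
        (F.c (pr ω) : ℝ) / ((2 ^ J : ℕ) : ℝ) * F.v₁ (pr ω) k⌋ := rfl
      rw [e5]
      push_cast
      have f1 := Int.floor_le (pos (2 ^ J) (F.u₀ (pr ω)) (F.v₀ (pr ω)) (F.s (pr ω)) k +
        (F.c (pr ω) : ℝ) / 2 ^ J * F.v₁ (pr ω) k)
      have f2 := Int.lt_floor_add_one (pos (2 ^ J) (F.u₀ (pr ω)) (F.v₀ (pr ω)) (F.s (pr ω)) k +
        (F.c (pr ω) : ℝ) / 2 ^ J * F.v₁ (pr ω) k)
      rw [abs_le]
      constructor <;> linarith) hbig
  -- the middle term is `ic`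
  have g1 : CH q (fun ω => (F.s (pr ω), rd (pos (2 ^ J) (F.u₀ (pr ω)) (F.v₀ (pr ω))
      (F.s (pr ω))))) (fun ω => F.Z (pr ω)) = CH F.q F.C F.Z := hm'.CH F.C F.Z
  have g2 : CH q (fun ω => (F.s (pr ω) + F.c (pr ω), (F.O (pr ω)).2)) (fun ω => F.Z (pr ω)) =
      F.xh := hm'.CH F.O F.Z
  have g3 : CH q (fun ω => ((F.s (pr ω), rd (pos (2 ^ J) (F.u₀ (pr ω)) (F.v₀ (pr ω))
      (F.s (pr ω)))), (F.s (pr ω) + F.c (pr ω), (F.O (pr ω)).2))) (fun ω => F.Z (pr ω)) =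
      CH F.q (fun w => (F.C w, F.O w)) F.Z := hm'.CH (fun w => (F.C w, F.O w)) F.Z
  have g4 : F.ic = CH F.q F.C F.Z + F.xh - CH F.q (fun w => (F.C w, F.O w)) F.Z := rfl
  rw [g1, g2, g3, ← g4] at a2
  have g5 : CH q (fun ω => cap J (lev J N (w ω)) (F.v₁ (pr ω)))
      (fun ω => (w ω, (F.s (pr ω) + F.c (pr ω), (F.O (pr ω)).2), F.Z (pr ω))) =
      CH q (fun ω => cap J (lev J N (w ω)) (F.FL.v (pr ω))) (fun ω => (w ω, F.FL.Z (pr ω))) := rfl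
  rw [g5] at a2
  have hG0 := hF.G0
  have hb3 : F.big F.c ≤ C3 * (G + 1 + Real.log ((J : ℝ) + 2)) := by
    have a := h3 J F
    simp only at a
    have b2 := big_nonneg F F.c₂
    have b3 := sml_nonneg F F.c
    have b4 := sml_nonneg F F.c₂
    have b5 := hF.ge
    have b6 : C3 * (en F + 1 + Real.log ((J : ℝ) + 2)) ≤ C3 * (G + 1 + Real.log ((J : ℝ) + 2)) :=
      mul_le_mul_of_nonneg_left (by linarith) hC3
    linarith
  have hb4 : F.big F.c ≤ C3 * (G + 1) + C3 * C4 + C3 * (ε' * lm J) := by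
    have := mul_le_mul_of_nonneg_left (h4 J) hC3
    nlinarith
  have hb0 := big_nonneg F F.c
  have k1 : C1 * (Gf (2 ^ J) q (bv (fun ω => F.Z (pr ω)) (fun ω => F.v₀ (pr ω)))
      (fun ω => F.s (pr ω)) + 1) ≤ C1 * (G + 1) :=
    mul_le_mul_of_nonneg_left (by linarith) hC1
  have k2 : C2 * (F.big F.c + 1) ≤ |C2| * (C3 + C3 * C4 + 1) * (G + 1) + ε / 2 * lm J := by
    have s1 : C2 * (F.big F.c + 1) ≤ |C2| * (F.big F.c + 1) :=
      mul_le_mul_of_nonneg_right (le_abs_self _) (by linarith)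
    have s2 : |C2| * (F.big F.c + 1) ≤
        |C2| * (C3 * (G + 1) + C3 * C4 + C3 * (ε' * lm J) + 1) :=
      mul_le_mul_of_nonneg_left (by linarith) (abs_nonneg _)
    have s3 : |C2| * C3 * ε' * lm J ≤ ε / 2 * lm J := mul_le_mul_of_nonneg_right hεm hlm
    have s4 : 0 ≤ |C2| * (C3 * C4 + 1) * G := by positivity
    nlinarith
  have k3 : 0 ≤ C1 * (G + 1) := by positivity
  have k4 : (C1 + |C2| * (C3 + C3 * C4 + 1)) * (G + 1) =
      C1 * (G + 1) + |C2| * (C3 + C3 * C4 + 1) * (G + 1) := by ring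
  rw [k4]
  have k5 : μ / 2 * (Ex q (fun ω => (w ω : ℝ)) / N * lm J) =
      (μ * (Ex q (fun ω => (w ω : ℝ)) / N * lm J)) / 2 := by ring
  rw [k5]
  linarith

end Pool.LQ
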